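import Pool.Agent.Helper81.AD2.Goals

/-! Packet AD2-CAN. -/

namespace Pool.Agent.Helper8.AD2.CAN

open Pool.Agent.Helper88.AD Pool.Agent.Helper81.AD2

theorem t (h1 : S_CAN1) (h2 : S_CAN2) : S_CAN := by
  intro d
  have hfin : {w : List (Pt d) | Can w}.Finite := by
    have hsub : {w : List (Pt d) | Can w} ⊆ {w : List (Pt d) | w.length = 2 * d} :=
      fun w hw => isD_length hw.1
    exact (List.finite_length_eq (Pt d) (2 * d)).subset hsub
  have hb : hfin.toFinset.card ≤ bd d := by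
    rw [← Set.ncard_eq_toFinset_card _ hfin]
    exact h2 d
  refine le_trans ?_ hb
  classical
  let q : V d →ₗ[ℚ] (V d ⧸ (N1 d ⊔ RN d)) := (N1 d ⊔ RN d).mkQ
  let T : Finset (V d ⧸ (N1 d ⊔ RN d)) := hfin.toFinset.image fun w => q (el w)
  have hT : Submodule.span ℚ (T : Set (V d ⧸ (N1 d ⊔ RN d))) = ⊤ := by
    rw [eq_top_iff]
    intro x _
    obtain ⟨v, rfl⟩ := Submodule.mkQ_surjective _ x
    have hv : v ∈ N1 d ⊔ RN d ⊔
        Submodule.span ℚ {v | ∃ u : List (Pt d), Can u ∧ v = el u} := by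
      have hv' : v ∈ Submodule.span ℚ (Set.range fun w : List (Pt d) => el w) := by
        rw [span_el d]; trivial
      refine (Submodule.span_le.2 ?_ : Submodule.span ℚ _ ≤ _) hv'
      rintro _ ⟨w, rfl⟩
      exact h1 d w
    obtain ⟨a, ha, b, hb', rfl⟩ := Submodule.mem_sup.1 hv
    have h3 : (N1 d ⊔ RN d).mkQ a = 0 := by
      rw [Submodule.mkQ_apply, Submodule.Quotient.mk_eq_zero]
      exact ha
    rw [map_add, h3, zero_add]
    have h4 : Submodule.span ℚ {v | ∃ u : List (Pt d), Can u ∧ v = el u} ≤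
        (Submodule.span ℚ (T : Set (V d ⧸ (N1 d ⊔ RN d)))).comap (N1 d ⊔ RN d).mkQ := by
      rw [Submodule.span_le]
      rintro _ ⟨u, hu, rfl⟩
      refine Submodule.subset_span ?_
      rw [Finset.coe_image]
      exact ⟨u, by simpa using hu, rfl⟩
    exact h4 hb'
  have h5 : Module.finrank ℚ (V d ⧸ (N1 d ⊔ RN d)) =
      Module.finrank ℚ (Submodule.span ℚ (T : Set (V d ⧸ (N1 d ⊔ RN d)))) := by
    rw [hT]
    exact (finrank_top ℚ _).symm
  rw [h5]
  exact (finrank_span_finset_le_card T).trans Finset.card_image_le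

end Pool.Agent.Helper8.AD2.CAN
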